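import Mathlib

set_option autoImplicit false

/-! # The abstract counting game -/

namespace Pool.Agent.Helper317_MS

/-- one more layer -/
def TT (P' : ℕ → ℕ → ℕ → ℕ → Prop) (t s M : ℕ) : Prop := ∃ j < t, P' (t - 1 - j) s (M + j) 0

def RH (P' : ℕ → ℕ → ℕ → ℕ → Prop) (t M : ℕ) : Prop := ∃ r < M, P' t 0 0 r

def RR (P' : ℕ → ℕ → ℕ → ℕ → Prop) (t M : ℕ) : Prop := ¬ RH P' t M ∧ ¬ TT P' t 0 M

def CC (P' : ℕ → ℕ → ℕ → ℕ → Prop) (t i M : ℕ) : Prop :=
  ¬ TT P' t i M ∧ ¬ RH P' t M ∧ ∀ r < i, ¬ RR P' t (M + r)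

def ST (P' : ℕ → ℕ → ℕ → ℕ → Prop) (t c i M : ℕ) : Prop :=
  ¬ TT P' t (c + i) M ∧ ¬ RH P' t M ∧ (∀ r < i, ¬ RR P' t (M + r)) ∧ ∀ q < c, ¬ CC P' t (q + i) M

def PP : ℕ → ℕ → ℕ → ℕ → ℕ → Prop
  | 0 => fun _ c i _ => c = 0 ∧ i = 0
  | k + 1 => ST (PP k)

theorem cc_iff (P' : ℕ → ℕ → ℕ → ℕ → Prop) (t i M : ℕ) : ST P' t 0 i M ↔ CC P' t i M := by
  unfold ST CC
  simp

theorem rr_iff (P' : ℕ → ℕ → ℕ → ℕ → Prop) (t M : ℕ) : ST P' t 0 0 M ↔ RR P' t M := by
  unfold ST RR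
  simp [and_comm]

/-- key: a winning zone move for `r` gives one for the shifted position -/
theorem star {P' : ℕ → ℕ → ℕ → ℕ → Prop}
    (hS : ∀ t c i M, P' t c i M → P' t 0 (c + i) M) {t r M : ℕ} (h : TT P' t r M) :
    ¬ RR P' t (M + r) := by
  obtain ⟨j, hj, h⟩ := h
  intro hR
  apply hR.2
  refine ⟨j, hj, ?_⟩
  have := hS _ _ _ _ h
  have e : M + r + j = r + (M + j) := by omega
  rw [e]
  exact this

/-- if all `CC` in a range fail and the small `RR` fail then all `RR` in the range fail -/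
theorem range {P' : ℕ → ℕ → ℕ → ℕ → Prop}
    (hS : ∀ t c i M, P' t c i M → P' t 0 (c + i) M) {t c i M : ℕ} (h2 : ¬ RH P' t M)
    (h3 : ∀ r < i, ¬ RR P' t (M + r)) (h4 : ∀ q < c, ¬ CC P' t (q + i) M) :
    ∀ r < c + i, ¬ RR P' t (M + r) := by
  intro r
  induction r using Nat.strong_induction_on with
  | _ r ih =>
    intro hr
    by_cases hri : r < i
    · exact h3 r hri
    · have h5 := h4 (r - i) (by omega)
      have e : r - i + i = r := by omega
      rw [e] at h5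
      by_contra hcon
      apply h5
      refine ⟨fun hT => star hS hT hcon, h2, fun r' hr' => ih r' hr' (by omega)⟩

theorem SS (k : ℕ) : ∀ t c i M, PP k t c i M → PP k t 0 (c + i) M := by
  induction k with
  | zero => intro t c i M h; obtain ⟨h1, h2⟩ := h; exact ⟨rfl, by omega⟩
  | succ k ih =>
    intro t c i M h
    obtain ⟨h1, h2, h3, h4⟩ := h
    change ST (PP k) t 0 (c + i) M
    rw [cc_iff]
    exact ⟨h1, h2, range ih h2 h3 h4⟩

theorem HH (k : ℕ) : ∀ t c i M, k + 1 ≤ c → ¬ PP k t c i M := by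
  induction k with
  | zero => intro t c i M h h'; simp only [PP] at h'; omega
  | succ k ih =>
    intro t c i M hc h
    obtain ⟨h1, h2, h3, h4⟩ := h
    have h5 := range (SS k) h2 h3 h4
    apply h4 (k + 1) (by omega)
    refine ⟨?_, h2, fun r hr => h5 r (by omega)⟩
    rintro ⟨j, hj, h⟩
    exact ih _ _ _ _ (by omega) h

/-- no position with fewer lower cards -/
theorem A1 (k t c i M q : ℕ) (h : PP (k + 1) t c i M) (hq : q < c) : ¬ PP (k + 1) t q i M := by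
  intro h'
  have := SS (k + 1) _ _ _ _ h'
  have h5 : CC (PP k) t (q + i) M := (cc_iff _ _ _ _).mp this
  exact h.2.2.2 q hq h5

/-- the moves out of a position which is not in `PP` -/
theorem A2 (k t c i M : ℕ) (h : ¬ PP (k + 1) t c i M) :
    (∃ j < t, PP k (t - 1 - j) (c + i) (M + j) 0) ∨ (∃ r < M, PP k t 0 0 r) ∨
    (∃ r < i, PP (k + 1) t 0 0 (M + r)) ∨
    (∃ q < c, PP (k + 1) t 0 (q + i) M ∧ PP (k + 1) t q i M) := by
  by_cases h1 : TT (PP k) t (c + i) M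
  · exact Or.inl h1
  by_cases h2 : RH (PP k) t M
  · exact Or.inr (Or.inl h2)
  by_cases h3 : ∃ r < i, RR (PP k) t (M + r)
  · obtain ⟨r, hr, h3⟩ := h3
    exact Or.inr (Or.inr (Or.inl ⟨r, hr, (rr_iff _ _ _).mpr h3⟩))
  push Not at h3
  have h4 : ∃ q, q < c ∧ CC (PP k) t (q + i) M := by
    by_contra hcon
    push Not at hcon
    exact h ⟨h1, h2, h3, hcon⟩
  classical
  have hm := Nat.find_spec h4
  have hmin : ∀ q' < Nat.find h4, ¬ (q' < c ∧ CC (PP k) t (q' + i) M) := fun q' h' =>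
    Nat.find_min h4 h'
  refine Or.inr (Or.inr (Or.inr ⟨Nat.find h4, hm.1, (cc_iff _ _ _ _).mpr hm.2, ?_⟩))
  exact ⟨hm.2.1, h2, h3, fun q' hq' hC => hmin q' hq' ⟨by omega, hC⟩⟩

/-- threshold -/
def TH : ℕ → ℕ
  | 0 => 0
  | k + 1 => k + 1 + TH k

theorem main (k : ℕ) : ∀ t, TH (k + 1) ≤ t →
    (∀ s, ¬ PP (k + 1) t 0 0 s) ∧ ∀ m, k + 1 ≤ m → PP (k + 1) t 0 m 0 := by
  induction k with
  | zero =>
    intro t ht
    simp only [TH] at ht
    have hR : ∀ s, ¬ PP 1 t 0 0 s := by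
      intro s h
      obtain ⟨h1, h2, -⟩ := h
      rcases Nat.eq_zero_or_pos s with rfl | hs
      · exact h1 ⟨0, by omega, by simp [PP]⟩
      · exact h2 ⟨0, hs, by simp [PP]⟩
    refine ⟨hR, fun m hm => ?_⟩
    change ST (PP 0) t 0 m 0
    rw [cc_iff]
    refine ⟨?_, ?_, fun r _ h => hR _ ((rr_iff _ _ _).mpr h)⟩
    · rintro ⟨j, hj, h⟩
      simp only [PP] at h
      omega
    · rintro ⟨r, hr, -⟩
      omega
  | succ k ih =>
    intro t ht
    have hR : ∀ s, ¬ PP (k + 2) t 0 0 s := by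
      intro s h
      obtain ⟨h1, -⟩ := h
      apply h1
      simp only [TH] at ht ih
      refine ⟨k + 1, by omega, ?_⟩
      exact (ih (t - 1 - (k + 1)) (by omega)).2 (s + (k + 1)) (by omega)
    refine ⟨hR, fun m hm => ?_⟩
    change ST (PP (k + 1)) t 0 m 0
    rw [cc_iff]
    refine ⟨?_, ?_, fun r _ h => hR _ ((rr_iff _ _ _).mpr h)⟩
    · rintro ⟨j, hj, h⟩
      exact HH (k + 1) _ _ _ _ (by omega) h
    · rintro ⟨r, hr, -⟩
      omega

theorem TH_eq (k : ℕ) : 2 * TH k = k * (k + 1) := by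
  induction k with
  | zero => rfl
  | succ k ih => simp only [TH]; nlinarith

end Pool.Agent.Helper317_MS
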