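import Pool.Agent.Helper317_MS.Lab
import Pool.Agent.Helper317_MS.Num

set_option autoImplicit false
set_option linter.unusedSimpArgs false

/-! # Boards and the counting game -/

namespace Pool.Agent.Helper317_MS

open Finset

section
variable (n : ℕ) (b : List ℕ)

def L : ℕ := U b (n + 1)

def free : Finset ℕ := (Finset.Icc 1 n).filter (fun y => y ∉ b)

def lo : Finset ℕ := (free n b).filter (fun y => V b y = 1 ∧ U b y + 2 ≤ L n b)
def mi : Finset ℕ := (free n b).filter (fun y => V b y = 1 ∧ U b y + 1 = L n b)
def hi : Finset ℕ := (free n b).filter (fun y => V b y = 1 ∧ U b y = L n b)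
def tz : Finset ℕ := (free n b).filter (fun y => V b y = 0)

end

variable {n : ℕ} {b : List ℕ}

theorem mem_free (y : ℕ) : y ∈ free n b ↔ Legal n b y := by
  simp [free, Legal, and_assoc]

theorem U_le_L {y : ℕ} (hy : y ≤ n) : U b y ≤ L n b := U_mono b (by omega)

theorem U_eq_L {y : ℕ} (hy : y ≤ n) (hb : y ∉ b) (h : V b y = 0) : U b y = L n b :=
  le_antisymm (U_le_L hy) (U_top b y (n + 1) h hb)

theorem L_cons {x : ℕ} (hx : Legal n b x) : L n (x :: b) = max (L n b) (U b x + 1) := by
  unfold L
  rw [U_cons, if_pos (by have := hx.2.1; omega)]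

/-- facts about a card `y` above the card `x` -/
theorem above {x : ℕ} (hx : Legal n b x) {y : ℕ} (hy : Legal n b y) (h : x < y) :
    U b y ≤ L n b ∧ (V b y ≠ 0 ∨ U b y = L n b) ∧ (V b x ≠ 0 ∨ U b x = L n b) ∧
    U b x ≤ U b y ∧ V b y ≤ V b x ∧ L n (x :: b) = max (L n b) (U b x + 1) ∧
    U (x :: b) y = max (U b y) (U b x + 1) ∧ V (x :: b) y = V b y := by
  refine ⟨U_le_L hy.2.1, ?_, ?_, U_mono b h.le, V_mono b h.le, L_cons hx, ?_, ?_⟩
  · by_cases h : V b y = 0
    · exact Or.inr (U_eq_L hy.2.1 hy.2.2 h)
    · exact Or.inl h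
  · by_cases h : V b x = 0
    · exact Or.inr (U_eq_L hx.2.1 hx.2.2 h)
    · exact Or.inl h
  · rw [U_cons, if_pos h]
  · rw [V_cons, if_neg (by omega)]

/-- facts about a card `y` below the card `x` -/
theorem below {x : ℕ} (hx : Legal n b x) {y : ℕ} (hy : Legal n b y) (h : y < x) :
    U b y ≤ L n b ∧ (V b y ≠ 0 ∨ U b y = L n b) ∧ (V b x ≠ 0 ∨ U b x = L n b) ∧
    U b y ≤ U b x ∧ V b x ≤ V b y ∧ L n (x :: b) = max (L n b) (U b x + 1) ∧ U b x ≤ L n b ∧
    U (x :: b) y = U b y ∧ V (x :: b) y = max (V b y) (V b x + 1) := by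
  refine ⟨U_le_L hy.2.1, ?_, ?_, U_mono b h.le, V_mono b h.le, L_cons hx, U_le_L hx.2.1, ?_, ?_⟩
  · by_cases h : V b y = 0
    · exact Or.inr (U_eq_L hy.2.1 hy.2.2 h)
    · exact Or.inl h
  · by_cases h : V b x = 0
    · exact Or.inr (U_eq_L hx.2.1 hx.2.2 h)
    · exact Or.inl h
  · rw [U_cons, if_neg (by omega)]
  · rw [V_cons, if_pos h]

theorem legal_cons (x y : ℕ) : Legal n (x :: b) y ↔ Legal n b y ∧ y ≠ x := by
  simp only [Legal, List.mem_cons, not_or]
  tauto

/-! ### zone moves -/

theorem tz_lo {x : ℕ} (hx : Legal n b x) (h : V b x = 0) : lo n (x :: b) = lo n b ∪ mi n b := by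
  ext y
  simp only [lo, mi, mem_union, mem_filter, mem_free, legal_cons]
  by_cases hy : Legal n b y
  · simp only [hy, true_and]
    rcases lt_trichotomy y x with h3 | h3 | h3
    · have F := below hx hy h3
      omega
    · subst h3
      have F := U_eq_L hx.2.1 hx.2.2 h
      omega
    · have F := above hx hy h3
      omega
  · simp [hy]

theorem tz_mi {x : ℕ} (hx : Legal n b x) (h : V b x = 0) :
    mi n (x :: b) = hi n b ∪ (tz n b).filter (fun y => y < x) := by
  ext y
  simp only [hi, mi, tz, mem_union, mem_filter, mem_free, legal_cons]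
  by_cases hy : Legal n b y
  · simp only [hy, true_and]
    rcases lt_trichotomy y x with h3 | h3 | h3
    · have F := below hx hy h3
      omega
    · subst h3
      have F := U_eq_L hx.2.1 hx.2.2 h
      omega
    · have F := above hx hy h3
      omega
  · simp [hy]

theorem tz_hi {x : ℕ} (hx : Legal n b x) (h : V b x = 0) : hi n (x :: b) = ∅ := by
  rw [eq_empty_iff_forall_notMem]
  intro y
  simp only [hi, mem_filter, mem_free, legal_cons]
  rintro ⟨⟨hy, hyx⟩, h1, h2⟩
  rcases lt_or_gt_of_ne hyx with h3 | h3
  · have F := below hx hy h3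
    omega
  · have F := above hx hy h3
    omega

theorem tz_tz {x : ℕ} (hx : Legal n b x) (h : V b x = 0) :
    tz n (x :: b) = (tz n b).filter (fun y => x < y) := by
  ext y
  simp only [tz, mem_filter, mem_free, legal_cons]
  by_cases hy : Legal n b y
  · simp only [hy, true_and]
    rcases lt_trichotomy y x with h3 | h3 | h3
    · have F := below hx hy h3
      omega
    · subst h3
      omega
    · have F := above hx hy h3
      omega
  · simp [hy]


/-! ### moves in the middle zone -/

theorem low_lo {x : ℕ} (hx : Legal n b x) (h : V b x = 1) (hu : U b x + 3 ≤ L n b) :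
    lo n (x :: b) = (lo n b).filter (fun y => x < y) := by
  ext y
  simp only [lo, mi, hi, tz, mem_union, mem_filter, mem_free, legal_cons, notMem_empty]
  by_cases hy : Legal n b y
  · simp only [hy, true_and]
    rcases lt_trichotomy y x with h3 | h3 | h3
    · have F := below hx hy h3
      omega
    · subst h3
      have F := U_le_L (b := b) hx.2.1
      omega
    · have F := above hx hy h3
      omega
  · simp [hy]

theorem low_mi {x : ℕ} (hx : Legal n b x) (h : V b x = 1) (hu : U b x + 3 ≤ L n b) :
    mi n (x :: b) = mi n b := by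
  ext y
  simp only [lo, mi, hi, tz, mem_union, mem_filter, mem_free, legal_cons, notMem_empty]
  by_cases hy : Legal n b y
  · simp only [hy, true_and]
    rcases lt_trichotomy y x with h3 | h3 | h3
    · have F := below hx hy h3
      omega
    · subst h3
      have F := U_le_L (b := b) hx.2.1
      omega
    · have F := above hx hy h3
      omega
  · simp [hy]

theorem low_hi {x : ℕ} (hx : Legal n b x) (h : V b x = 1) (hu : U b x + 3 ≤ L n b) :
    hi n (x :: b) = hi n b := by
  ext y
  simp only [lo, mi, hi, tz, mem_union, mem_filter, mem_free, legal_cons, notMem_empty]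
  by_cases hy : Legal n b y
  · simp only [hy, true_and]
    rcases lt_trichotomy y x with h3 | h3 | h3
    · have F := below hx hy h3
      omega
    · subst h3
      have F := U_le_L (b := b) hx.2.1
      omega
    · have F := above hx hy h3
      omega
  · simp [hy]

theorem lo2_lo {x : ℕ} (hx : Legal n b x) (h : V b x = 1) (hu : U b x + 2 = L n b) :
    lo n (x :: b) = ∅ := by
  rw [eq_empty_iff_forall_notMem]
  intro y
  simp only [lo, mi, mem_filter, mem_free, legal_cons]
  rintro ⟨⟨hy, hyx⟩, h1, h2⟩
  rcases lt_or_gt_of_ne hyx with h3 | h3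
  · have F := below hx hy h3
    omega
  · have F := above hx hy h3
    omega

theorem lo2_mi {x : ℕ} (hx : Legal n b x) (h : V b x = 1) (hu : U b x + 2 = L n b) :
    mi n (x :: b) = (lo n b).filter (fun y => x < y) ∪ mi n b := by
  ext y
  simp only [lo, mi, hi, tz, mem_union, mem_filter, mem_free, legal_cons, notMem_empty]
  by_cases hy : Legal n b y
  · simp only [hy, true_and]
    rcases lt_trichotomy y x with h3 | h3 | h3
    · have F := below hx hy h3
      omega
    · subst h3
      have F := U_le_L (b := b) hx.2.1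
      omega
    · have F := above hx hy h3
      omega
  · simp [hy]

theorem lo2_hi {x : ℕ} (hx : Legal n b x) (h : V b x = 1) (hu : U b x + 2 = L n b) :
    hi n (x :: b) = hi n b := by
  ext y
  simp only [lo, mi, hi, tz, mem_union, mem_filter, mem_free, legal_cons, notMem_empty]
  by_cases hy : Legal n b y
  · simp only [hy, true_and]
    rcases lt_trichotomy y x with h3 | h3 | h3
    · have F := below hx hy h3
      omega
    · subst h3
      have F := U_le_L (b := b) hx.2.1
      omega
    · have F := above hx hy h3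
      omega
  · simp [hy]

theorem mi_lo {x : ℕ} (hx : Legal n b x) (h : V b x = 1) (hu : U b x + 1 = L n b) :
    lo n (x :: b) = ∅ := by
  rw [eq_empty_iff_forall_notMem]
  intro y
  simp only [lo, mi, mem_filter, mem_free, legal_cons]
  rintro ⟨⟨hy, hyx⟩, h1, h2⟩
  rcases lt_or_gt_of_ne hyx with h3 | h3
  · have F := below hx hy h3
    omega
  · have F := above hx hy h3
    omega

theorem mi_mi {x : ℕ} (hx : Legal n b x) (h : V b x = 1) (hu : U b x + 1 = L n b) :
    mi n (x :: b) = ∅ := by
  rw [eq_empty_iff_forall_notMem]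
  intro y
  simp only [lo, mi, mem_filter, mem_free, legal_cons]
  rintro ⟨⟨hy, hyx⟩, h1, h2⟩
  rcases lt_or_gt_of_ne hyx with h3 | h3
  · have F := below hx hy h3
    omega
  · have F := above hx hy h3
    omega

theorem mi_hi {x : ℕ} (hx : Legal n b x) (h : V b x = 1) (hu : U b x + 1 = L n b) :
    hi n (x :: b) = (mi n b).filter (fun y => x < y) ∪ hi n b := by
  ext y
  simp only [lo, mi, hi, tz, mem_union, mem_filter, mem_free, legal_cons, notMem_empty]
  by_cases hy : Legal n b y
  · simp only [hy, true_and]
    rcases lt_trichotomy y x with h3 | h3 | h3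
    · have F := below hx hy h3
      omega
    · subst h3
      have F := U_le_L (b := b) hx.2.1
      omega
    · have F := above hx hy h3
      omega
  · simp [hy]

theorem hi_lo {x : ℕ} (hx : Legal n b x) (h : V b x = 1) (hu : U b x = L n b) :
    lo n (x :: b) = ∅ := by
  rw [eq_empty_iff_forall_notMem]
  intro y
  simp only [lo, mi, mem_filter, mem_free, legal_cons]
  rintro ⟨⟨hy, hyx⟩, h1, h2⟩
  rcases lt_or_gt_of_ne hyx with h3 | h3
  · have F := below hx hy h3
    omega
  · have F := above hx hy h3
    omega

theorem hi_mi {x : ℕ} (hx : Legal n b x) (h : V b x = 1) (hu : U b x = L n b) :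
    mi n (x :: b) = ∅ := by
  rw [eq_empty_iff_forall_notMem]
  intro y
  simp only [lo, mi, mem_filter, mem_free, legal_cons]
  rintro ⟨⟨hy, hyx⟩, h1, h2⟩
  rcases lt_or_gt_of_ne hyx with h3 | h3
  · have F := below hx hy h3
    omega
  · have F := above hx hy h3
    omega

theorem hi_hi {x : ℕ} (hx : Legal n b x) (h : V b x = 1) (hu : U b x = L n b) :
    hi n (x :: b) = (hi n b).filter (fun y => x < y) := by
  ext y
  simp only [lo, mi, hi, tz, mem_union, mem_filter, mem_free, legal_cons, notMem_empty]
  by_cases hy : Legal n b y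
  · simp only [hy, true_and]
    rcases lt_trichotomy y x with h3 | h3 | h3
    · have F := below hx hy h3
      omega
    · subst h3
      have F := U_le_L (b := b) hx.2.1
      omega
    · have F := above hx hy h3
      omega
  · simp [hy]

theorem v_tz {x : ℕ} (hx : Legal n b x) (h : V b x = 1) :
    tz n (x :: b) = tz n b := by
  ext y
  simp only [lo, mi, hi, tz, mem_union, mem_filter, mem_free, legal_cons, notMem_empty]
  by_cases hy : Legal n b y
  · simp only [hy, true_and]
    rcases lt_trichotomy y x with h3 | h3 | h3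
    · have F := below hx hy h3
      omega
    · subst h3
      have F := U_le_L (b := b) hx.2.1
      omega
    · have F := above hx hy h3
      omega
  · simp [hy]

end Pool.Agent.Helper317_MS
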