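import Mathlib

set_option autoImplicit false

/-! # Counting elements above -/

namespace Pool.Agent.Helper317_MS

open Finset

theorem exists_above (q : ℕ) : ∀ S : Finset ℕ, q < S.card →
    ∃ x ∈ S, (S.filter (fun y => x < y)).card = q := by
  induction q with
  | zero =>
    intro S hS
    have hne : S.Nonempty := card_pos.mp hS
    refine ⟨S.max' hne, S.max'_mem hne, ?_⟩
    rw [card_eq_zero, filter_eq_empty_iff]
    intro y hy
    exact not_lt.mpr (S.le_max' y hy)
  | succ q ih =>
    intro S hS
    have hne : S.Nonempty := card_pos.mp (by omega)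
    have hm := S.max'_mem hne
    obtain ⟨x, hx, hc⟩ := ih (S.erase (S.max' hne)) (by rw [card_erase_of_mem hm]; omega)
    refine ⟨x, (mem_erase.mp hx).2, ?_⟩
    have hlt : x < S.max' hne := lt_of_le_of_ne (S.le_max' x (mem_erase.mp hx).2) (mem_erase.mp hx).1
    have : S.filter (fun y => x < y) =
        insert (S.max' hne) ((S.erase (S.max' hne)).filter (fun y => x < y)) := by
      ext y
      simp only [mem_filter, mem_insert, mem_erase]
      constructor
      · rintro ⟨h1, h2⟩
        by_cases h : y = S.max' hne
        · exact Or.inl h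
        · exact Or.inr ⟨⟨h, h1⟩, h2⟩
      · rintro (h | h)
        · rw [h]
          exact ⟨hm, hlt⟩
        · exact ⟨h.1.2, h.2⟩
    rw [this, card_insert_of_notMem (by simp), hc]

theorem count_split (S : Finset ℕ) (x : ℕ) (hx : x ∈ S) :
    (S.filter (fun y => y < x)).card + 1 + (S.filter (fun y => x < y)).card = S.card := by
  have h : S = (S.filter (fun y => y < x) ∪ {x}) ∪ S.filter (fun y => x < y) := by
    ext y
    simp only [mem_union, mem_filter, mem_singleton]
    constructor
    · intro hy
      rcases lt_trichotomy y x with h | h | h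
      · exact Or.inl (Or.inl ⟨hy, h⟩)
      · exact Or.inl (Or.inr h)
      · exact Or.inr ⟨hy, h⟩
    · rintro ((h | h) | h)
      · exact h.1
      · rw [h]; exact hx
      · exact h.1
  conv_rhs => rw [h]
  rw [card_union_of_disjoint, card_union_of_disjoint, card_singleton]
  · rw [disjoint_left]
    intro y h1 h2
    rw [mem_filter] at h1
    rw [mem_singleton] at h2
    omega
  · rw [disjoint_left]
    intro y h1 h2
    rw [mem_union, mem_filter, mem_singleton] at h1
    rw [mem_filter] at h2
    omega

theorem exists_below (S : Finset ℕ) (j : ℕ) (h : j < S.card) :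
    ∃ x ∈ S, (S.filter (fun y => y < x)).card = j ∧
      (S.filter (fun y => x < y)).card = S.card - 1 - j := by
  obtain ⟨x, hx, hc⟩ := exists_above (S.card - 1 - j) S (by omega)
  have := count_split S x hx
  exact ⟨x, hx, by omega, hc⟩

end Pool.Agent.Helper317_MS
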