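import Mathlib

set_option autoImplicit false

/-!
# Finite monotonic sequence games: definitions

Boards are lists of cards with the most recently chosen card first.
-/

namespace Pool.Agent.Helper317_MS

/-- `x` is a card of the deck `{1, ..., n}` which is not on the board `b`. -/
def Legal (n : ℕ) (b : List ℕ) (x : ℕ) : Prop := 1 ≤ x ∧ x ≤ n ∧ x ∉ b

/-- The board contains an increasing subsequence of length `a` or a decreasing subsequence of
length `d` (in order of play; as the latest card is the first entry of the list `b`, an increasing
subsequence of the board is a sublist of `b` whose entries decrease). -/
def Critical (a d : ℕ) (b : List ℕ) : Prop :=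
  ∃ s : List ℕ, s.Sublist b ∧
    ((s.length = a ∧ s.Pairwise (· > ·)) ∨ (s.length = d ∧ s.Pairwise (· < ·)))

/-- Misere play: the player to move at the board `b` can force a win.  He has a move `x` which does
not create a critical sequence, after which the deck is not used up and all moves `y` of the other
player create a critical sequence (and lose) or lead to a board at which he again can force a
win. -/
inductive MoverWins (a d n : ℕ) : List ℕ → Prop
  | move (b : List ℕ) (x : ℕ) (hx : Legal n b x) (hs : ¬ Critical a d (x :: b))
      (hl : ∃ y, Legal n (x :: b) y)
      (h : ∀ y, Legal n (x :: b) y → ¬ Critical a d (y :: x :: b) →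
        MoverWins a d n (y :: x :: b)) : MoverWins a d n b

end Pool.Agent.Helper317_MS
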