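import Pool.Agent.Helper317_MS.Defs

set_option autoImplicit false

/-! # Labels -/

namespace Pool.Agent.Helper317_MS

/-- the largest length of a chain on the board which can be extended by `x` -/
def W (r : ℕ → ℕ → Prop) [DecidableRel r] : List ℕ → ℕ → ℕ
  | [], _ => 0
  | y :: b, x => if r y x then max (W r b x) (W r b y + 1) else W r b x

theorem W_iff (r : ℕ → ℕ → Prop) [DecidableRel r] (htr : ∀ x y z, r x y → r y z → r x z)
    (b : List ℕ) : ∀ (m x : ℕ), (∃ s : List ℕ, s.Sublist b ∧ s.length = m ∧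
      s.Pairwise (fun p q => r q p) ∧ ∀ z ∈ s, r z x) ↔ m ≤ W r b x := by
  induction b with
  | nil =>
    intro m x
    constructor
    · rintro ⟨s, h1, h2, -⟩
      rw [List.sublist_nil] at h1
      subst h1
      simp at h2
      simp [W, ← h2]
    · intro h
      simp only [W] at h
      exact ⟨[], List.Sublist.refl _, by simp; omega, List.Pairwise.nil, by simp⟩
  | cons y b ih =>
    intro m x
    constructor
    · rintro ⟨s, h1, h2, h3, h4⟩
      rcases List.sublist_cons_iff.mp h1 with h | ⟨s', rfl, h⟩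
      · have h5 := (ih m x).mp ⟨s, h, h2, h3, h4⟩
        simp only [W]
        split_ifs
        · exact le_max_of_le_left h5
        · exact h5
      · have h6 := h4 y (by simp)
        rw [List.pairwise_cons] at h3
        have h5 := (ih s'.length y).mp ⟨s', h, rfl, h3.2, fun z hz => h3.1 z hz⟩
        simp only [W, if_pos h6]
        refine le_max_of_le_right ?_
        simp at h2
        omega
    · intro h
      simp only [W] at h
      have hcase : m ≤ W r b x ∨ (r y x ∧ m ≤ W r b y + 1) := by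
        split_ifs at h with h7
        · rcases le_max_iff.mp h with h | h
          · exact Or.inl h
          · exact Or.inr ⟨h7, h⟩
        · exact Or.inl h
      rcases hcase with h | ⟨h7, h⟩
      · obtain ⟨s, h1, h2⟩ := (ih m x).mpr h
        exact ⟨s, h1.cons _, h2⟩
      · rcases Nat.eq_zero_or_pos m with rfl | hm
        · exact ⟨[], List.nil_sublist _, rfl, List.Pairwise.nil, by simp⟩
        · obtain ⟨s, h1, h2, h3, h4⟩ := (ih (m - 1) y).mpr (by omega)
          refine ⟨y :: s, h1.cons_cons y, by simp; omega, List.pairwise_cons.mpr ⟨h4, h3⟩, ?_⟩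
          intro z hz
          rcases List.mem_cons.mp hz with rfl | hz
          · exact h7
          · exact htr _ _ _ (h4 z hz) h7

theorem W_mono (r : ℕ → ℕ → Prop) [DecidableRel r] (htr : ∀ x y z, r x y → r y z → r x z)
    (b : List ℕ) (x y : ℕ) (h : ∀ z, r z x → r z y) : W r b x ≤ W r b y := by
  obtain ⟨s, h1, h2, h3, h4⟩ := (W_iff r htr b (W r b x) x).mpr le_rfl
  exact (W_iff r htr b (W r b x) y).mp ⟨s, h1, h2, h3, fun z hz => h z (h4 z hz)⟩

/-- label for increasing sequences -/
abbrev U (b : List ℕ) (x : ℕ) : ℕ := W (fun p q => p < q) b x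

/-- label for decreasing sequences -/
abbrev V (b : List ℕ) (x : ℕ) : ℕ := W (fun p q => q < p) b x

theorem U_cons (x : ℕ) (b : List ℕ) (y : ℕ) :
    U (x :: b) y = if x < y then max (U b y) (U b x + 1) else U b y := rfl

theorem V_cons (x : ℕ) (b : List ℕ) (y : ℕ) :
    V (x :: b) y = if y < x then max (V b y) (V b x + 1) else V b y := rfl

theorem U_mono (b : List ℕ) {x y : ℕ} (h : x ≤ y) : U b x ≤ U b y :=
  W_mono (fun p q => p < q) (fun _ _ _ => lt_trans) b x y fun _ hz => lt_of_lt_of_le hz h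

theorem V_mono (b : List ℕ) {x y : ℕ} (h : x ≤ y) : V b y ≤ V b x :=
  W_mono (fun p q => q < p) (fun _ _ _ h1 h2 => lt_trans h2 h1) b y x
    fun _ hz => lt_of_le_of_lt h hz

theorem V_zero (b : List ℕ) (x : ℕ) (h : V b x = 0) : ∀ y ∈ b, y ≤ x := by
  induction b with
  | nil => simp
  | cons y b ih =>
    rw [V_cons] at h
    intro z hz
    split_ifs at h with h1
    · have := le_max_right (V b x) (V b y + 1)
      omega
    · rcases List.mem_cons.mp hz with rfl | hz
      · omega
      · exact ih h z hz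

theorem U_top (b : List ℕ) (x m : ℕ) (h : V b x = 0) (hx : x ∉ b) :
    U b m ≤ U b x := by
  obtain ⟨s, h1, h2, h3, h4⟩ := (W_iff (fun p q => p < q) (fun _ _ _ => lt_trans) b (U b m) m).mpr
    le_rfl
  refine (W_iff (fun p q => p < q) (fun _ _ _ => lt_trans) b (U b m) x).mp ⟨s, h1, h2, h3, ?_⟩
  intro z hz
  have h5 := h1.subset hz
  have h6 := V_zero b x h z h5
  rcases lt_or_eq_of_le h6 with h7 | h7
  · exact h7
  · exact absurd (h7 ▸ h5) hx

theorem crit_cons (a d : ℕ) (ha : 1 ≤ a) (hd : 1 ≤ d) (x : ℕ) (b : List ℕ) :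
    Critical a d (x :: b) ↔ Critical a d b ∨ a ≤ U b x + 1 ∨ d ≤ V b x + 1 := by
  constructor
  · rintro ⟨s, h1, h2⟩
    rcases List.sublist_cons_iff.mp h1 with h | ⟨s', rfl, h⟩
    · exact Or.inl ⟨s, h, h2⟩
    · right
      rcases h2 with ⟨h2, h3⟩ | ⟨h2, h3⟩
      · left
        rw [List.pairwise_cons] at h3
        have := (W_iff (fun p q => p < q) (fun _ _ _ => lt_trans) b s'.length x).mp
          ⟨s', h, rfl, h3.2, fun z hz => h3.1 z hz⟩
        simp at h2
        change s'.length ≤ U b x at this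
        omega
      · right
        rw [List.pairwise_cons] at h3
        have := (W_iff (fun p q => q < p) (fun _ _ _ h1 h2 => lt_trans h2 h1) b s'.length x).mp
          ⟨s', h, rfl, h3.2, fun z hz => h3.1 z hz⟩
        simp at h2
        change s'.length ≤ V b x at this
        omega
  · rintro (⟨s, h1, h2⟩ | h | h)
    · exact ⟨s, h1.cons _, h2⟩
    · obtain ⟨s, h1, h2, h3, h4⟩ := (W_iff (fun p q => p < q) (fun _ _ _ => lt_trans) b (a - 1)
        x).mpr (by change a - 1 ≤ U b x; omega)
      exact ⟨x :: s, h1.cons_cons x, Or.inl ⟨by simp; omega, List.pairwise_cons.mpr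
        ⟨fun z hz => h4 z hz, h3⟩⟩⟩
    · obtain ⟨s, h1, h2, h3, h4⟩ := (W_iff (fun p q => q < p) (fun _ _ _ h1 h2 => lt_trans h2 h1)
        b (d - 1) x).mpr (by change d - 1 ≤ V b x; omega)
      exact ⟨x :: s, h1.cons_cons x, Or.inr ⟨by simp; omega, List.pairwise_cons.mpr
        ⟨fun z hz => h4 z hz, h3⟩⟩⟩

end Pool.Agent.Helper317_MS
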