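import Pool.Agent.Helper317_MS.Lab

set_option autoImplicit false

/-! # Boards without critical sequences are short -/

namespace Pool.Agent.Helper317_MS

theorem split (a : ℕ) (b : List ℕ) (hb : b.Nodup) (hc : ¬ Critical a 3 b) :
    ∃ p q : List ℕ, p.Sublist b ∧ q.Sublist b ∧ p.length + q.length = b.length ∧
      p.Pairwise (· > ·) ∧ q.Pairwise (· > ·) ∧
      ∀ y ∈ q, ∃ z, [y, z].Sublist b ∧ y < z := by
  induction b with
  | nil => exact ⟨[], [], by simp⟩
  | cons x b ih =>
    have hc' : ¬ Critical a 3 b := by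
      rintro ⟨s, h1, h2⟩
      exact hc ⟨s, h1.cons _, h2⟩
    obtain ⟨p, q, hp, hq, hlen, hp1, hq1, hq2⟩ := ih (List.nodup_cons.mp hb).2 hc'
    have hx := (List.nodup_cons.mp hb).1
    by_cases h : ∃ z ∈ b, x < z
    · obtain ⟨z, hz, hxz⟩ := h
      refine ⟨p, x :: q, hp.cons _, hq.cons_cons x, by simp; omega, hp1,
        List.pairwise_cons.mpr ⟨fun y hy => ?_, hq1⟩, fun y hy => ?_⟩
      · by_contra hcon
        obtain ⟨w, hw, hyw⟩ := hq2 y hy
        have hne : x ≠ y := by
          rintro rfl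
          exact hx (hq.subset hy)
        apply hc
        refine ⟨[x, y, w], hw.cons_cons x, Or.inr ⟨rfl, ?_⟩⟩
        simp
        omega
      · rcases List.mem_cons.mp hy with rfl | hy
        · exact ⟨z, (List.singleton_sublist.mpr hz).cons_cons _, hxz⟩
        · obtain ⟨w, hw, hyw⟩ := hq2 y hy
          exact ⟨w, hw.cons _, hyw⟩
    · push Not at h
      refine ⟨x :: p, q, hp.cons_cons x, hq.cons _, by simp; omega,
        List.pairwise_cons.mpr ⟨fun y hy => ?_, hp1⟩, hq1, fun y hy => ?_⟩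
      · have h1 := h y (hp.subset hy)
        rcases lt_or_eq_of_le h1 with h2 | h2
        · exact h2
        · exact absurd (h2 ▸ hp.subset hy) hx
      · obtain ⟨w, hw, hyw⟩ := hq2 y hy
        exact ⟨w, hw.cons _, hyw⟩

theorem length_le (a : ℕ) (ha : 1 ≤ a) (b : List ℕ) (hb : b.Nodup) (hc : ¬ Critical a 3 b) :
    b.length ≤ 2 * (a - 1) := by
  obtain ⟨p, q, hp, hq, hlen, hp1, hq1, -⟩ := split a b hb hc
  have key : ∀ p : List ℕ, p.Sublist b → p.Pairwise (· > ·) → p.length ≤ a - 1 := by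
    intro p hp hp1
    by_contra hcon
    apply hc
    refine ⟨p.take a, (List.take_sublist a p).trans hp, Or.inl ⟨?_, hp1.sublist
      (List.take_sublist a p)⟩⟩
    rw [List.length_take]
    omega
  have := key p hp hp1
  have := key q hq hq1
  omega

theorem exists_legal (a n : ℕ) (ha : 1 ≤ a) (hn : 2 * (a - 1) < n) (b : List ℕ) (hb : b.Nodup)
    (hc : ¬ Critical a 3 b) : ∃ y, Legal n b y := by
  by_contra hcon
  push Not at hcon
  have h1 : Finset.Icc 1 n ⊆ b.toFinset := by
    intro y hy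
    rw [List.mem_toFinset]
    by_contra h
    rw [Finset.mem_Icc] at hy
    exact hcon y ⟨hy.1, hy.2, h⟩
  have h2 := Finset.card_le_card h1
  have h3 := List.toFinset_card_le b
  have h4 := length_le a ha b hb hc
  simp at h2
  omega

theorem L_lt (a d m : ℕ) (b : List ℕ) (hc : ¬ Critical a d b) : U b m < a := by
  by_contra hcon
  obtain ⟨s, h1, h2, h3, -⟩ := (W_iff (fun p q => p < q) (fun _ _ _ => lt_trans) b a m).mpr
    (by change a ≤ U b m; omega)
  exact hc ⟨s, h1, Or.inl ⟨h2, h3⟩⟩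

end Pool.Agent.Helper317_MS
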