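import Pool.Agent.Helper317_MS.Board
import Pool.Agent.Helper317_MS.Count
import Pool.Agent.Helper317_MS.Len

set_option autoImplicit false

/-! # The strategy -/

namespace Pool.Agent.Helper317_MS

open Finset

variable {a n : ℕ} {b : List ℕ}

def PB (a n : ℕ) (b : List ℕ) : Prop :=
  PP (a - 1 - L n b) (tz n b).card (lo n b).card (mi n b).card (hi n b).card

theorem safe_iff (ha : 1 ≤ a) (x : ℕ) (b : List ℕ) :
    ¬ Critical a 3 (x :: b) ↔ ¬ Critical a 3 b ∧ U b x + 1 < a ∧ V b x ≤ 1 := by
  rw [crit_cons a 3 ha (by norm_num)]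
  constructor
  · intro h
    push Not at h
    exact ⟨h.1, by omega, by omega⟩
  · rintro ⟨h1, h2, h3⟩
    push Not
    exact ⟨h1, by omega, by omega⟩

theorem PB_tz {x : ℕ} (hx : Legal n b x) (h : V b x = 0) : PB a n (x :: b) ↔
    PP (a - 1 - (L n b + 1)) ((tz n b).filter (fun y => x < y)).card
      ((lo n b).card + (mi n b).card)
      ((hi n b).card + ((tz n b).filter (fun y => y < x)).card) 0 := by
  unfold PB
  have hL : L n (x :: b) = L n b + 1 := by
    rw [L_cons hx, U_eq_L hx.2.1 hx.2.2 h]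
    omega
  rw [hL, tz_lo hx h, tz_mi hx h, tz_hi hx h, tz_tz hx h, card_empty, card_union_of_disjoint,
    card_union_of_disjoint]
  · rw [disjoint_left]
    intro y h1 h2
    simp only [hi, tz, mem_filter] at h1 h2
    omega
  · rw [disjoint_left]
    intro y h1 h2
    simp only [lo, mi, mem_filter] at h1 h2
    omega

theorem PB_low {x : ℕ} (hx : Legal n b x) (h : V b x = 1) (hu : U b x + 3 ≤ L n b) :
    PB a n (x :: b) ↔ PP (a - 1 - L n b) (tz n b).card ((lo n b).filter (fun y => x < y)).card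
      (mi n b).card (hi n b).card := by
  unfold PB
  have hL : L n (x :: b) = L n b := by
    rw [L_cons hx]
    omega
  rw [hL, low_lo hx h hu, low_mi hx h hu, low_hi hx h hu, v_tz hx h]

theorem PB_lo2 {x : ℕ} (hx : Legal n b x) (h : V b x = 1) (hu : U b x + 2 = L n b) :
    PB a n (x :: b) ↔ PP (a - 1 - L n b) (tz n b).card 0
      (((lo n b).filter (fun y => x < y)).card + (mi n b).card) (hi n b).card := by
  unfold PB
  have hL : L n (x :: b) = L n b := by
    rw [L_cons hx]
    omega
  rw [hL, lo2_lo hx h hu, lo2_mi hx h hu, lo2_hi hx h hu, v_tz hx h, card_empty,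
    card_union_of_disjoint]
  rw [disjoint_left]
  intro y h1 h2
  simp only [lo, mi, mem_filter] at h1 h2
  omega

theorem PB_mi {x : ℕ} (hx : Legal n b x) (h : V b x = 1) (hu : U b x + 1 = L n b) :
    PB a n (x :: b) ↔ PP (a - 1 - L n b) (tz n b).card 0 0
      (((mi n b).filter (fun y => x < y)).card + (hi n b).card) := by
  unfold PB
  have hL : L n (x :: b) = L n b := by
    rw [L_cons hx]
    omega
  rw [hL, mi_lo hx h hu, mi_mi hx h hu, mi_hi hx h hu, v_tz hx h, card_empty,
    card_union_of_disjoint]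
  rw [disjoint_left]
  intro y h1 h2
  simp only [hi, mi, mem_filter] at h1 h2
  omega

theorem PB_hi {x : ℕ} (hx : Legal n b x) (h : V b x = 1) (hu : U b x = L n b) :
    PB a n (x :: b) ↔ PP (a - 1 - (L n b + 1)) (tz n b).card 0 0
      ((hi n b).filter (fun y => x < y)).card := by
  unfold PB
  have hL : L n (x :: b) = L n b + 1 := by
    rw [L_cons hx]
    omega
  rw [hL, hi_lo hx h hu, hi_mi hx h hu, hi_hi hx h hu, v_tz hx h, card_empty]

theorem card_filter_lt (S : Finset ℕ) (x : ℕ) (hx : x ∈ S) :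
    (S.filter (fun y => x < y)).card < S.card := by
  have := count_split S x hx
  omega

/-- all moves out of a board in `PB` lead out of `PB` -/
theorem lemB (ha : 1 ≤ a) (hb : PB a n b) {x : ℕ} (hx : Legal n b x)
    (hs : ¬ Critical a 3 (x :: b)) : ¬ PB a n (x :: b) := by
  obtain ⟨hc, hU, hV⟩ := (safe_iff ha x b).mp hs
  have hUL := U_le_L (b := b) hx.2.1
  have hLa : L n b < a := L_lt a 3 (n + 1) b hc
  have hfree : x ∈ free n b := (mem_free x).mpr hx
  intro h'
  unfold PB at hb
  rcases Nat.lt_or_ge 0 (V b x) with hV1 | hV1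
  · have hV2 : V b x = 1 := by omega
    by_cases hu : U b x = L n b
    · have hmem : x ∈ hi n b := mem_filter.mpr ⟨hfree, hV2, hu⟩
      rw [PB_hi hx hV2 hu] at h'
      obtain ⟨k, hk⟩ : ∃ k, a - 1 - L n b = k + 1 := ⟨a - 1 - L n b - 1, by omega⟩
      have hk' : a - 1 - (L n b + 1) = k := by omega
      rw [hk] at hb
      rw [hk'] at h'
      exact hb.2.1 ⟨_, card_filter_lt _ x hmem, h'⟩
    by_cases hu1 : U b x + 1 = L n b
    · have hmem : x ∈ mi n b := mem_filter.mpr ⟨hfree, hV2, hu1⟩
      have hpos : 0 < (mi n b).card := card_pos.mpr ⟨x, hmem⟩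
      rw [PB_mi hx hV2 hu1] at h'
      cases hk : a - 1 - L n b with
      | zero =>
        rw [hk] at hb
        have := hb.2
        omega
      | succ k =>
        rw [hk] at hb h'
        refine hb.2.2.1 _ (card_filter_lt _ x hmem) ?_
        rw [← rr_iff, add_comm]
        exact h'
    have hmem : x ∈ lo n b := mem_filter.mpr ⟨hfree, hV2, by omega⟩
    have hpos : 0 < (lo n b).card := card_pos.mpr ⟨x, hmem⟩
    by_cases hu2 : U b x + 2 = L n b
    · rw [PB_lo2 hx hV2 hu2] at h'
      cases hk : a - 1 - L n b with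
      | zero =>
        rw [hk] at hb
        have := hb.1
        omega
      | succ k =>
        rw [hk] at hb h'
        refine hb.2.2.2 _ (card_filter_lt _ x hmem) ?_
        rw [← cc_iff]
        exact h'
    · rw [PB_low hx hV2 (by omega)] at h'
      cases hk : a - 1 - L n b with
      | zero =>
        rw [hk] at hb
        have := hb.1
        omega
      | succ k =>
        rw [hk] at hb h'
        exact A1 k _ _ _ _ _ hb (card_filter_lt _ x hmem) h'
  · have hV0 : V b x = 0 := by omega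
    have hmem : x ∈ tz n b := mem_filter.mpr ⟨hfree, hV0⟩
    have hUx := U_eq_L hx.2.1 hx.2.2 hV0
    rw [PB_tz hx hV0] at h'
    obtain ⟨k, hk⟩ : ∃ k, a - 1 - L n b = k + 1 := ⟨a - 1 - L n b - 1, by omega⟩
    have hk' : a - 1 - (L n b + 1) = k := by omega
    rw [hk] at hb
    rw [hk'] at h'
    have hcs := count_split _ x hmem
    refine hb.1 ⟨((tz n b).filter (fun y => y < x)).card, by omega, ?_⟩
    have e : (tz n b).card - 1 - ((tz n b).filter (fun y => y < x)).card
        = ((tz n b).filter (fun y => x < y)).card := by omega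
    rw [e]
    exact h'

/-- out of a board which is not in `PB` there is a move to `PB` -/
theorem lemA (ha : 1 ≤ a) (hc : ¬ Critical a 3 b) (hb : ¬ PB a n b) :
    ∃ x, Legal n b x ∧ ¬ Critical a 3 (x :: b) ∧ PB a n (x :: b) := by
  have hLa : L n b < a := L_lt a 3 (n + 1) b hc
  unfold PB at hb
  cases hk : a - 1 - L n b with
  | zero =>
    rw [hk] at hb
    by_cases hi0 : (mi n b).card = 0
    · have hc0 : 0 < (lo n b).card := by
        by_contra hcon
        exact hb ⟨by omega, hi0⟩
      obtain ⟨x, hx, hq⟩ := exists_above 0 _ hc0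
      have h1 := mem_filter.mp hx
      have hl := (mem_free x).mp h1.1
      refine ⟨x, hl, (safe_iff ha x b).mpr ⟨hc, by omega, by omega⟩, ?_⟩
      by_cases hu : U b x + 2 = L n b
      · rw [PB_lo2 hl h1.2.1 hu, hk, hq, hi0]
        exact ⟨rfl, rfl⟩
      · rw [PB_low hl h1.2.1 (by omega), hk, hq, hi0]
        exact ⟨rfl, rfl⟩
    · obtain ⟨x, hx, hq⟩ := exists_above 0 (mi n b) (by omega)
      have h1 := mem_filter.mp hx
      have hl := (mem_free x).mp h1.1
      refine ⟨x, hl, (safe_iff ha x b).mpr ⟨hc, by omega, by omega⟩, ?_⟩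
      rw [PB_mi hl h1.2.1 h1.2.2, hk]
      exact ⟨rfl, rfl⟩
  | succ k =>
    rw [hk] at hb
    have hk' : a - 1 - (L n b + 1) = k := by omega
    rcases A2 k _ _ _ _ hb with ⟨j, hj, h⟩ | ⟨r, hr, h⟩ | ⟨r, hr, h⟩ | ⟨q, hq, h, h'⟩
    · obtain ⟨x, hx, hx1, hx2⟩ := exists_below _ j hj
      have h1 := mem_filter.mp hx
      have hl := (mem_free x).mp h1.1
      have hUx := U_eq_L hl.2.1 hl.2.2 h1.2
      refine ⟨x, hl, (safe_iff ha x b).mpr ⟨hc, by omega, by omega⟩, ?_⟩
      rw [PB_tz hl h1.2, hx1, hx2, hk']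
      exact h
    · obtain ⟨x, hx, hq⟩ := exists_above _ _ hr
      have h1 := mem_filter.mp hx
      have hl := (mem_free x).mp h1.1
      refine ⟨x, hl, (safe_iff ha x b).mpr ⟨hc, by omega, by omega⟩, ?_⟩
      rw [PB_hi hl h1.2.1 h1.2.2, hq, hk']
      exact h
    · obtain ⟨x, hx, hq⟩ := exists_above _ _ hr
      have h1 := mem_filter.mp hx
      have hl := (mem_free x).mp h1.1
      refine ⟨x, hl, (safe_iff ha x b).mpr ⟨hc, by omega, by omega⟩, ?_⟩
      rw [PB_mi hl h1.2.1 h1.2.2, hq, hk, Nat.add_comm r]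
      exact h
    · obtain ⟨x, hx, hq⟩ := exists_above _ _ hq
      have h1 := mem_filter.mp hx
      have hl := (mem_free x).mp h1.1
      refine ⟨x, hl, (safe_iff ha x b).mpr ⟨hc, by omega, by omega⟩, ?_⟩
      by_cases hu : U b x + 2 = L n b
      · rw [PB_lo2 hl h1.2.1 hu, hq, hk]
        exact h
      · rw [PB_low hl h1.2.1 (by omega), hq, hk]
        exact h'

theorem free_cons {x : ℕ} (hx : Legal n b x) : (free n (x :: b)).card + 1 = (free n b).card := by
  have h : free n (x :: b) = (free n b).erase x := by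
    ext y
    rw [mem_erase, mem_free, mem_free, legal_cons]
    tauto
  rw [h, card_erase_of_mem ((mem_free x).mpr hx)]
  have : 0 < (free n b).card := card_pos.mpr ⟨x, (mem_free x).mpr hx⟩
  omega

theorem win (ha : 1 ≤ a) (hn : 2 * (a - 1) < n) (m : ℕ) : ∀ b : List ℕ, (free n b).card = m →
    b.Nodup → ¬ Critical a 3 b → ¬ PB a n b → MoverWins a 3 n b := by
  induction m using Nat.strong_induction_on with
  | _ m ih =>
    intro b hm hnd hc hb
    obtain ⟨x, hx, hs, hP⟩ := lemA ha hc hb
    have hnd' : (x :: b).Nodup := List.nodup_cons.mpr ⟨hx.2.2, hnd⟩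
    refine MoverWins.move b x hx hs (exists_legal a n ha hn _ hnd' hs) fun y hy hys => ?_
    have h1 := free_cons hx
    have h2 := free_cons hy
    exact ih (free n (y :: x :: b)).card (by omega) _ rfl
      (List.nodup_cons.mpr ⟨hy.2.2, hnd'⟩) hys (lemB ha hP hy hys)

theorem first (ha : 3 ≤ a) (h1 : a * (a - 1) ≤ 2 * n) (h2 : 2 * (a - 1) < n) :
    MoverWins a 3 n [] := by
  obtain ⟨k, rfl⟩ : ∃ k, a = k + 3 := ⟨a - 3, by omega⟩
  have hc : ¬ Critical (k + 3) 3 [] := by
    rintro ⟨s, hs, h⟩
    rw [List.sublist_nil] at hs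
    subst hs
    simp at h
  apply win (by omega) h2 _ [] rfl List.nodup_nil hc
  -- the first move
  intro hP
  have hl : Legal n [] (k + 2) := ⟨by omega, by omega, by simp⟩
  have hV : V [] (k + 2) = 0 := rfl
  have hU : U [] (k + 2) = 0 := rfl
  have hs : ¬ Critical (k + 3) 3 [k + 2] := (safe_iff (by omega) _ _).mpr ⟨hc, by omega, by omega⟩
  apply lemB (by omega) hP hl hs
  rw [PB_tz hl hV]
  have hL : L n [] = 0 := rfl
  have hlo : lo n [] = ∅ := by
    rw [eq_empty_iff_forall_notMem]
    intro y hy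
    have := (mem_filter.mp hy).2.1
    simp [W] at this
  have hmi : mi n [] = ∅ := by
    rw [eq_empty_iff_forall_notMem]
    intro y hy
    have := (mem_filter.mp hy).2.1
    simp [W] at this
  have hhi : hi n [] = ∅ := by
    rw [eq_empty_iff_forall_notMem]
    intro y hy
    have := (mem_filter.mp hy).2.1
    simp [W] at this
  have htz : tz n [] = Finset.Icc 1 n := by
    ext y
    simp [tz, free, W]
  rw [hL, hlo, hmi, hhi, htz]
  have e1 : ((Finset.Icc 1 n).filter (fun y => k + 2 < y)).card = n - (k + 2) := by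
    have : (Finset.Icc 1 n).filter (fun y => k + 2 < y) = Finset.Icc (k + 3) n := by
      ext y
      simp only [mem_filter, mem_Icc]
      omega
    rw [this, Nat.card_Icc]
    omega
  have e2 : ((Finset.Icc 1 n).filter (fun y => y < k + 2)).card = k + 1 := by
    have : (Finset.Icc 1 n).filter (fun y => y < k + 2) = Finset.Icc 1 (k + 1) := by
      ext y
      simp only [mem_filter, mem_Icc]
      omega
    rw [this, Nat.card_Icc]
    omega
  rw [e1, e2]
  have e3 : k + 3 - 1 - (0 + 1) = k + 1 := by omega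
  rw [e3]
  simp only [card_empty, Nat.zero_add]
  refine (main k (n - (k + 2)) ?_).2 (k + 1) le_rfl
  have h3 := TH_eq (k + 1)
  have h4 : (k + 3) * (k + 3 - 1) = (k + 1) * (k + 1 + 1) + 2 * (k + 2) := by
    have : k + 3 - 1 = k + 2 := by omega
    rw [this]
    ring
  omega

end Pool.Agent.Helper317_MS
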